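import Mathlib

/-!
# A vector field in the plane which points inward on a circle has a zero
-/

set_option autoImplicit false

namespace Pool.Agent.H13.F1

open Complex

/-- the radial retraction on the closed disc of radius `R` -/
noncomputable def ret (R : ℝ) (z : ℂ) : ℂ := ((R / max R ‖z‖ : ℝ) : ℂ) * z

theorem ret_cont {R : ℝ} (hR : 0 < R) : Continuous (ret R) := by
  unfold ret
  have h : Continuous fun z : ℂ => R / max R ‖z‖ := by
    refine continuous_const.div (continuous_const.max continuous_norm) ?_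
    intro z
    exact (lt_of_lt_of_le hR (le_max_left _ _)).ne'
  exact (continuous_ofReal.comp h).mul continuous_id

theorem ret_norm {R : ℝ} (hR : 0 < R) (z : ℂ) : ‖ret R z‖ ≤ R := by
  unfold ret
  have hm : 0 < max R ‖z‖ := lt_of_lt_of_le hR (le_max_left _ _)
  rw [norm_mul, norm_real, Real.norm_eq_abs, abs_of_nonneg (div_nonneg hR.le hm.le), div_mul_eq_mul_div,
    div_le_iff₀ hm]
  exact mul_le_mul_of_nonneg_left (le_max_right _ _) hR.le

theorem ret_eq {R : ℝ} (hR : 0 < R) {z : ℂ} (hz : ‖z‖ ≤ R) : ret R z = z := by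
  unfold ret
  rw [max_eq_left hz, div_self hR.ne', ofReal_one, one_mul]

/-- a continuous logarithm of a continuous nowhere zero function on the plane -/
theorem exists_log (W : ℂ → ℂ) (hW : Continuous W) (h0 : ∀ z, W z ≠ 0) :
    ∃ L : ℂ → ℂ, Continuous L ∧ ∀ z, exp (L z) = W z := by
  obtain ⟨F, ⟨_, hF⟩, _⟩ := isCoveringMapOn_exp.existsUnique_continuousMap_lifts (A := ℂ)
    (⟨W, hW⟩ : C(ℂ, ℂ)) (a₀ := 0) (e₀ := log (W 0)) (exp_log (h0 0)) (fun a => h0 a)
  exact ⟨F, F.continuous, fun z => congrFun hF z⟩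

/-- a continuous vector field which points inward on a circle has a zero in the disc -/
theorem exists_zero (V : ℂ → ℂ) (hV : Continuous V) {R : ℝ} (hR : 0 < R)
    (hin : ∀ z : ℂ, ‖z‖ = R → (V z * (starRingEnd ℂ) z).re < 0) : ∃ z, ‖z‖ ≤ R ∧ V z = 0 := by
  by_contra hcon
  push Not at hcon
  obtain ⟨L, hL, hLe⟩ := exists_log (fun z => V (ret R z)) (hV.comp (ret_cont hR))
    (fun z => hcon _ (ret_norm hR z))
  -- the circle
  set c : ℝ → ℂ := fun θ => (R : ℂ) * exp (θ * I) with hc
  have hcc : Continuous c := by fun_prop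
  have hcn : ∀ θ, ‖c θ‖ = R := by
    intro θ
    rw [hc]
    simp only
    rw [norm_mul, norm_exp_ofReal_mul_I, mul_one, norm_real, Real.norm_eq_abs, abs_of_pos hR]
  have hc0 : ∀ θ, c θ ≠ 0 := by
    intro θ h
    have := hcn θ
    rw [h, norm_zero] at this
    exact hR.ne this
  set Q : ℝ → ℂ := fun θ => V (c θ) / (-(c θ)) with hQ
  have hQc : Continuous Q := (hV.comp hcc).div hcc.neg (fun θ => neg_ne_zero.2 (hc0 θ))
  have hQre : ∀ θ, 0 < (Q θ).re := by
    intro θ
    have h1 := hin (c θ) (hcn θ)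
    have h2 : Q θ = -(V (c θ) * (starRingEnd ℂ) (c θ)) / ((R ^ 2 : ℝ) : ℂ) := by
      rw [hQ]
      simp only
      rw [div_eq_div_iff (neg_ne_zero.2 (hc0 θ)) (ofReal_ne_zero.2 (by positivity))]
      have h3 : (starRingEnd ℂ) (c θ) * c θ = ((R ^ 2 : ℝ) : ℂ) := by
        rw [mul_comm, mul_conj, normSq_eq_norm_sq, hcn]
      rw [← h3]
      ring
    rw [h2, div_ofReal_re, neg_re]
    exact div_pos (by linarith) (by positivity)
  have hQs : ∀ θ, Q θ ∈ slitPlane := fun θ => Or.inl (hQre θ)
  have hQl : Continuous fun θ => log (Q θ) := hQc.clog hQs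
  -- the lift compared with the logarithm
  set F : ℝ → ℂ := fun θ => L (c θ) - θ * I - log (Q θ) - Real.log R - Real.pi * I with hF
  have hFc : Continuous F := by
    rw [hF]
    exact ((((hL.comp hcc).sub (by fun_prop)).sub hQl).sub continuous_const).sub continuous_const
  have hFe : ∀ θ, exp (F θ) = 1 := by
    intro θ
    have h1 : exp (L (c θ)) = V (c θ) := by
      rw [hLe, ret_eq hR (hcn θ).le]
    have h2 : exp (log (Q θ)) = Q θ := exp_log (fun h => by
      have := hQre θ
      rw [h, zero_re] at this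
      exact lt_irrefl _ this)
    rw [hF]
    simp only
    rw [exp_sub, exp_sub, exp_sub, exp_sub, h1, h2, exp_pi_mul_I, ← ofReal_exp, Real.exp_log hR]
    have hQ' : V (c θ) = Q θ * (-(c θ)) := by
      rw [hQ]
      simp only
      rw [div_mul_cancel₀ _ (neg_ne_zero.2 (hc0 θ))]
    have hQ0 : Q θ ≠ 0 := fun h => by
      have := hQre θ
      rw [h, zero_re] at this
      exact lt_irrefl _ this
    have hR0 : (R : ℂ) ≠ 0 := ofReal_ne_zero.2 hR.ne'
    rw [hQ', hc]
    simp only
    have he : exp ((θ : ℂ) * I) ≠ 0 := exp_ne_zero _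
    field_simp
  have hFi : ∀ θ, ∃ n : ℤ, (F θ).im = 2 * Real.pi * n := by
    intro θ
    obtain ⟨n, hn⟩ := exp_eq_one_iff.1 (hFe θ)
    refine ⟨n, ?_⟩
    rw [hn]
    simp
    ring
  have h0 : F (2 * Real.pi) = F 0 - 2 * Real.pi * I := by
    have hcp : c (2 * Real.pi) = c 0 := by
      rw [hc]
      simp only
      push_cast
      rw [exp_two_pi_mul_I]
      simp
    have hQp : Q (2 * Real.pi) = Q 0 := by
      rw [hQ]
      simp only
      rw [hcp]
    rw [hF]
    simp only
    rw [hcp, hQp]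
    push_cast
    ring
  -- the imaginary part takes a value between two consecutive multiples of `2 π`
  have hcont : ContinuousOn (fun θ => (F θ).im) (Set.Icc 0 (2 * Real.pi)) :=
    (continuous_im.comp hFc).continuousOn
  have hpi := Real.pi_pos
  have hiv := intermediate_value_Icc' (by positivity : (0 : ℝ) ≤ 2 * Real.pi) hcont
  have himg : (F 0).im - Real.pi ∈ Set.Icc (F (2 * Real.pi)).im (F 0).im := by
    rw [h0]
    simp only [sub_im, mul_im, ofReal_im, I_im, ofReal_re, I_re, mul_re]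
    constructor
    · norm_num
      linarith
    · linarith
  obtain ⟨θ, _, hθ⟩ := hiv himg
  obtain ⟨n, hn⟩ := hFi θ
  obtain ⟨m, hm⟩ := hFi 0
  simp only at hθ
  rw [hn, hm] at hθ
  have h5 : (2 : ℝ) * (n : ℝ) = 2 * (m : ℝ) - 1 := by
    have : Real.pi * (2 * (n : ℝ)) = Real.pi * (2 * (m : ℝ) - 1) := by linarith
    exact mul_left_cancel₀ hpi.ne' this
  have h6 : 2 * n = 2 * m - 1 := by exact_mod_cast h5
  omega

end Pool.Agent.H13.F1
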